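import Pool.Agent.Q169.GR.Base
import Pool.Agent.Q169.GR.Two

/-!
# The graceful stacked books

The stacked book `S_{2m+1} × P_n` (`m ≥ 0`, `n ≥ 2`) is graceful unless `n = 2` and `m` is odd.

The case `n = 2` is known (Rosa's parity argument, and Skolem sequences of order `4s + 1`), and so are the grids `m = 0`.
For `m ≥ 1`, `n ≥ 3` the labeling is built up layer by layer.  Put `K = m`, `k = 2K + 1`.  All labelings have a threshold
`lam`: every edge joins a label `≤ lam` with a label `> lam`; the centre of the last layer has the label `lam + 1` and its
leaves have the labels `lam - d`, where `d` runs through `{0, ..., 2K+1} \ {K+1}`.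

* Inserting a layer (`Al.step`): the labels `> lam` are shifted by `4K + 3`, the new layer gets labels in between, and the
  edge labels of the `4K + 3` new edges are `1, ..., 4K + 3`.  The leaf with the offset `d` in the old layer gets the offset
  `s(d)` in the new one; the edge labels are `1 + s(d)`, `1 + K + d + s(d)` and `3K + 4`.  So one needs a permutation `s`
  of `{0, ..., 2K+1} \ {K+1}` such that the sums `d + s(d)` are `1` and `K+2, ..., 3K+2` without `2K+3` (`Good`; the
  permutation is `±(K+1)`, `K` up to a few exceptions).
* Three layers (`Trip`): the centres have the labels `10K + 7`, `2K + 1`, `4K + 4`, and the leaves `2K + 1 - w(i)`,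
  `2K + 1 + u(i)`, `2K + 1 + x(i)`; here `w` is a permutation of `1, ..., 2K+1`, `x` runs through `1, ..., 2K+2` without
  `K + 1`, and the `6K + 3` numbers `u`, `u + w`, `u - x` are `K + 2`, `2K + 4, ..., 8K + 5`.
-/

set_option autoImplicit false

namespace Pool.Agent.Results.MP_31789d_co.StackedBooks

open SimpleGraph Pool.Agent.Q169.GR

/-- For `m ≥ 0` and `n ≥ 2` the graph `S_{2m+1} × P_n` is graceful if and only if not (`n = 2` and `m` is odd). -/
theorem result (m n : ℕ) (hn : 2 ≤ n) :
    Graceful (starGraph (0 : Fin (2 * m + 1 + 1)) □ pathGraph n) ↔ ¬ (n = 2 ∧ Odd m) := by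
  constructor
  · rintro h ⟨rfl, s, rfl⟩
    exact not_graceful_two (2 * (2 * s + 1) + 1) (by omega) h
  · intro h
    rcases Nat.eq_zero_or_pos m with h0 | h0
    · subst h0
      exact graceful_ladder n (by omega)
    · rcases Nat.lt_or_ge 2 n with h2 | h2
      · exact graceful_three m h0 n h2
      · obtain rfl : n = 2 := by omega
        have hm : ¬ Odd m := fun h' => h ⟨rfl, h'⟩
        rw [Nat.not_odd_iff_even] at hm
        obtain ⟨s, rfl⟩ := hm
        have e : 2 * (s + s) + 1 = 4 * s + 1 := by ring
        have := graceful_two s (by omega)
        rw [← e] at this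
        exact this

end Pool.Agent.Results.MP_31789d_co.StackedBooks
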